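import Mathlib

set_option autoImplicit false

open Set Filter Topology

namespace Pool.Agent.Results.MP_81fb9f_gt.SigmaNotAleph

universe u

/-- A convergent sequence of `X`: a set `{xₙ : n ∈ ℕ} ∪ {x}` with `xₙ → x`
(constant sequences are allowed). -/
def IsConvSeq {X : Type u} [TopologicalSpace X] (C : Set X) : Prop :=
  ∃ (s : ℕ → X) (x : X), Tendsto s atTop (𝓝 x) ∧ C = Set.range s ∪ {x}

/-- `𝒮(X)`: the nonempty closed subsets of `X` that are unions of finitely many convergent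
sequences of `X`. -/
def SHyp (X : Type u) [TopologicalSpace X] : Type u :=
  {S : Set X // S.Nonempty ∧ IsClosed S ∧
    ∃ F : Set (Set X), F.Finite ∧ (∀ C ∈ F, IsConvSeq C) ∧ S = ⋃₀ F}

/-- `⟨P₁, …, P_r⟩ = {S ∈ 𝒮(X) : S ⊆ ⋃ᵢ Pᵢ, S ∩ P_j ≠ ∅ for all j}`. -/
def bracket {X : Type u} [TopologicalSpace X] {r : ℕ} (P : Fin r → Set X) : Set (SHyp X) :=
  {S | S.1 ⊆ ⋃ i, P i ∧ ∀ j, (S.1 ∩ P j).Nonempty}

/-- The Vietoris topology on `𝒮(X)`: the topology generated by the sets `⟨U₁, …, U_r⟩` with all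
`Uᵢ` open in `X` (they form a base, see `isTopologicalBasis_bracket`). -/
instance vietorisTopology (X : Type u) [TopologicalSpace X] : TopologicalSpace (SHyp X) :=
  TopologicalSpace.generateFrom
    {W | ∃ (r : ℕ) (U : Fin r → Set X), (∀ i, IsOpen (U i)) ∧ W = bracket U}

/-- A network of `Y`. -/
def IsNetwork {Y : Type u} [TopologicalSpace Y] (𝒩 : Set (Set Y)) : Prop :=
  ∀ (y : Y) (U : Set Y), IsOpen U → y ∈ U → ∃ P ∈ 𝒩, y ∈ P ∧ P ⊆ U

/-- A `k`-network of `Y`. -/
def IsKNetwork {Y : Type u} [TopologicalSpace Y] (𝒩 : Set (Set Y)) : Prop :=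
  ∀ (K U : Set Y), IsCompact K → IsOpen U → K ⊆ U →
    ∃ 𝒩' ⊆ 𝒩, 𝒩'.Finite ∧ K ⊆ ⋃₀ 𝒩' ∧ ⋃₀ 𝒩' ⊆ U

/-- A `σ`-locally finite family of subsets of `Y`: a countable union of locally finite families. -/
def IsSigmaLocallyFinite {Y : Type u} [TopologicalSpace Y] (𝒩 : Set (Set Y)) : Prop :=
  ∃ f : ℕ → Set (Set Y), 𝒩 = ⋃ n, f n ∧
    ∀ n, LocallyFinite (fun P : f n => (P : Set Y))

/-- A `σ`-space: a regular (Hausdorff) space with a `σ`-locally finite network. -/
def IsSigmaSpace (Y : Type u) [TopologicalSpace Y] : Prop :=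
  T3Space Y ∧ ∃ 𝒩 : Set (Set Y), IsNetwork 𝒩 ∧ IsSigmaLocallyFinite 𝒩

/-- An `ℵ`-space: a regular (Hausdorff) space with a `σ`-locally finite `k`-network. -/
def IsAlephSpace (Y : Type u) [TopologicalSpace Y] : Prop :=
  T3Space Y ∧ ∃ 𝒩 : Set (Set Y), IsKNetwork 𝒩 ∧ IsSigmaLocallyFinite 𝒩

/-! ### General facts on `𝒮(X)` -/

section general

variable {X : Type u} [TopologicalSpace X]

lemma isOpen_bracket {r : ℕ} {U : Fin r → Set X} (hU : ∀ i, IsOpen (U i)) :
    IsOpen (bracket U) :=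
  TopologicalSpace.isOpen_generateFrom_of_mem ⟨r, U, hU, rfl⟩

lemma isOpen_subset {W : Set X} (hW : IsOpen W) : IsOpen {S : SHyp X | S.1 ⊆ W} := by
  have h : {S : SHyp X | S.1 ⊆ W} = bracket (fun _ : Fin 1 => W) := by
    ext S
    constructor
    · intro hS
      have hS : S.1 ⊆ W := hS
      refine ⟨fun x hx => Set.mem_iUnion.mpr ⟨0, hS hx⟩, fun _ => ?_⟩
      obtain ⟨x, hx⟩ := S.2.1
      exact ⟨x, hx, hS hx⟩
    · rintro ⟨hS, -⟩ x hx
      obtain ⟨i, hi⟩ := Set.mem_iUnion.mp (hS hx)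
      exact hi
  rw [h]
  exact isOpen_bracket (fun _ => hW)

lemma isOpen_hit {W : Set X} (hW : IsOpen W) : IsOpen {S : SHyp X | (S.1 ∩ W).Nonempty} := by
  have h : {S : SHyp X | (S.1 ∩ W).Nonempty} =
      bracket (fun i : Fin 2 => if i = 0 then Set.univ else W) := by
    ext S
    constructor
    · intro hS
      have hS : (S.1 ∩ W).Nonempty := hS
      refine ⟨fun x hx => Set.mem_iUnion.mpr ⟨0, by simp⟩, fun j => ?_⟩
      fin_cases j
      · obtain ⟨x, hx⟩ := S.2.1
        exact ⟨x, hx, by simp⟩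
      · simpa using hS
    · rintro ⟨-, hS⟩
      simpa using hS 1
  rw [h]
  refine isOpen_bracket (fun i => ?_)
  fin_cases i
  · simp
  · simpa using hW

/-- The elements of `𝒮(X)` are compact. -/
lemma isCompact_of_SHyp (S : SHyp X) : IsCompact S.1 := by
  obtain ⟨F, hF, hC, hS⟩ := S.2.2.2
  rw [hS]
  refine hF.isCompact_sUnion ?_
  intro C hCF
  obtain ⟨s, x, hs, rfl⟩ := hC C hCF
  rw [Set.union_singleton]
  exact hs.isCompact_insert_range

/-- The inclusion of `𝒮(X)` into the space of compact subsets of `X` with its Vietoris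
topology. -/
def toCompacts (S : SHyp X) : TopologicalSpace.Compacts X := ⟨S.1, isCompact_of_SHyp S⟩

lemma toCompacts_injective : Function.Injective (toCompacts (X := X)) := by
  intro S T h
  apply Subtype.ext
  have := congrArg (fun K : TopologicalSpace.Compacts X => (K : Set X)) h
  exact this

lemma isEmbedding_toCompacts : IsEmbedding (toCompacts (X := X)) := by
  refine ⟨⟨?_⟩, toCompacts_injective⟩
  apply le_antisymm
  · -- continuity
    rw [← continuous_iff_le_induced]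
    rw [TopologicalSpace.Compacts.isTopologicalBasis.continuous_iff]
    rintro _ ⟨u, ⟨hu, huo⟩, rfl⟩
    have : toCompacts (X := X) ⁻¹' {K : TopologicalSpace.Compacts X |
        (K : Set X) ⊆ ⋃₀ u ∧ ∀ U ∈ u, ((K : Set X) ∩ U).Nonempty} =
        {S : SHyp X | S.1 ⊆ ⋃₀ u} ∩ ⋂ U ∈ u, {S : SHyp X | (S.1 ∩ U).Nonempty} := by
      ext S
      simp only [Set.mem_preimage, Set.mem_inter_iff, Set.mem_iInter]
      rfl
    rw [this]
    exact (isOpen_subset (isOpen_sUnion huo)).inter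
      (hu.isOpen_biInter (fun U hU => isOpen_hit (huo U hU)))
  · refine TopologicalSpace.le_generateFrom_iff_subset_isOpen.mpr ?_
    rintro _ ⟨r, U, hU, rfl⟩
    refine ⟨{K : TopologicalSpace.Compacts X | (K : Set X) ⊆ ⋃ i, U i} ∩
      ⋂ j, {K : TopologicalSpace.Compacts X | ((K : Set X) ∩ U j).Nonempty}, ?_, ?_⟩
    · refine (TopologicalSpace.Compacts.isOpen_subsets_of_isOpen (isOpen_iUnion hU)).inter ?_
      exact isOpen_iInter_of_finite
        (fun j => TopologicalSpace.Compacts.isOpen_inter_nonempty_of_isOpen (hU j))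
    · ext S
      simp only [Set.mem_preimage, Set.mem_inter_iff, Set.mem_iInter]
      rfl

/-- The sets `⟨U₁, …, U_r⟩` with open `Uᵢ` form a base of the topology of `𝒮(X)`. -/
lemma isTopologicalBasis_bracket :
    TopologicalSpace.IsTopologicalBasis
      {W : Set (SHyp X) | ∃ (r : ℕ) (U : Fin r → Set X), (∀ i, IsOpen (U i)) ∧ W = bracket U} := by
  have h := TopologicalSpace.Compacts.isTopologicalBasis (α := X) |>.isInducing
    isEmbedding_toCompacts.isInducing
  convert h using 1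
  ext W
  constructor
  · rintro ⟨r, U, hU, rfl⟩
    refine ⟨_, ⟨Set.range U, ⟨Set.finite_range U, ?_⟩, rfl⟩, ?_⟩
    · rintro _ ⟨i, rfl⟩; exact hU i
    · ext S
      simp only [Set.sUnion_range, Set.forall_mem_range]
      rfl
  · rintro ⟨_, ⟨u, ⟨hu, huo⟩, rfl⟩, rfl⟩
    obtain ⟨r, U, -, rfl⟩ := hu.fin_param
    refine ⟨r, U, fun i => huo _ ⟨i, rfl⟩, ?_⟩
    ext S
    simp only [Set.sUnion_range, Set.forall_mem_range]
    rfl

/-- The singleton map `X → 𝒮(X)`. -/
def single (x : X) [T1Space X] : SHyp X :=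
  ⟨{x}, Set.singleton_nonempty x, isClosed_singleton, {{x}}, Set.finite_singleton _, by
    intro C hC
    rw [Set.mem_singleton_iff] at hC
    subst hC
    exact ⟨fun _ => x, x, tendsto_const_nhds, by simp⟩, by simp⟩

lemma isEmbedding_single [T1Space X] : IsEmbedding (fun x : X => single x) := by
  refine ⟨⟨?_⟩, ?_⟩
  · apply le_antisymm
    · rw [← continuous_iff_le_induced]
      refine continuous_generateFrom_iff.mpr ?_
      rintro _ ⟨r, U, hU, rfl⟩
      have : (fun x : X => single x) ⁻¹' (bracket U) = (⋃ i, U i) ∩ ⋂ j, U j := by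
        ext x
        constructor
        · rintro ⟨h1, h2⟩
          refine ⟨h1 rfl, Set.mem_iInter.mpr (fun j => ?_)⟩
          obtain ⟨y, hy1, hy2⟩ := h2 j
          have hy1 : y = x := hy1
          exact hy1 ▸ hy2
        · rintro ⟨h1, h2⟩
          refine ⟨?_, fun j => ⟨x, rfl, Set.mem_iInter.mp h2 j⟩⟩
          rintro y hy
          have hy : y = x := hy
          exact hy ▸ h1
      rw [this]
      exact (isOpen_iUnion hU).inter (isOpen_iInter_of_finite hU)
    · intro U hU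
      refine ⟨{S : SHyp X | S.1 ⊆ U}, isOpen_subset hU, ?_⟩
      ext x
      constructor
      · intro h
        exact h rfl
      · intro h y hy
        have hy : y = x := hy
        exact hy ▸ h
  · intro x y h
    have := congrArg Subtype.val h
    simpa [single] using this

/-- `σ`-locally finite `k`-networks are inherited along embeddings. -/
lemma kNetwork_of_embedding {Y : Type u} [TopologicalSpace Y] {e : X → Y} (he : IsEmbedding e)
    (h : ∃ 𝒩 : Set (Set Y), IsKNetwork 𝒩 ∧ IsSigmaLocallyFinite 𝒩) :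
    ∃ 𝒩 : Set (Set X), IsKNetwork 𝒩 ∧ IsSigmaLocallyFinite 𝒩 := by
  obtain ⟨𝒩, hk, f, hf, hlf⟩ := h
  refine ⟨(fun P => e ⁻¹' P) '' 𝒩, ?_, fun n => (fun P => e ⁻¹' P) '' (f n), ?_, ?_⟩
  · intro K U hK hU hKU
    obtain ⟨V, hV, rfl⟩ := he.isInducing.isOpen_iff.mp hU
    obtain ⟨𝒬, h𝒬, hfin, h1, h2⟩ := hk (e '' K) V (hK.image he.continuous) hV
      (Set.image_subset_iff.mpr hKU)
    refine ⟨(fun P => e ⁻¹' P) '' 𝒬, Set.image_mono h𝒬, hfin.image _, ?_, ?_⟩
    · intro x hx
      obtain ⟨P, hP, hxP⟩ := h1 (Set.mem_image_of_mem e hx)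
      exact ⟨e ⁻¹' P, ⟨P, hP, rfl⟩, hxP⟩
    · rintro x ⟨_, ⟨P, hP, rfl⟩, hxP⟩
      exact h2 ⟨P, hP, hxP⟩
  · rw [hf, Set.image_iUnion]
  · intro n x
    obtain ⟨t, ht, hfin⟩ := hlf n (e x)
    refine ⟨e ⁻¹' t, he.continuous.continuousAt.preimage_mem_nhds ht, ?_⟩
    have hfin' : ((fun P : f n => e ⁻¹' (P : Set Y)) ''
        {P : f n | ((P : Set Y) ∩ t).Nonempty}).Finite := hfin.image _
    have hinj : Function.Injective
        (fun Q : ((fun P => e ⁻¹' P) '' (f n) : Set (Set X)) => (Q : Set X)) :=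
      Subtype.val_injective
    refine Set.Finite.of_finite_image (f := fun Q => (Q : Set X)) (hfin'.subset ?_)
      hinj.injOn
    rintro _ ⟨⟨Q, P, hP, hPQ⟩, hQ, rfl⟩
    have hPQ : e ⁻¹' P = Q := hPQ
    subst hPQ
    obtain ⟨y, hy1, hy2⟩ := hQ
    exact ⟨⟨P, hP⟩, ⟨e y, hy1, hy2⟩, rfl⟩

end general

/-! ### The fan -/

/-- The fan: the quotient of `ι` disjoint convergent sequences obtained by identifying the limit
points; `none` is the common limit, `some (i, n)` is the `n`-th term of the `i`-th sequence. -/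
def Fan (ι : Type u) : Type u := Option (ι × ℕ)

variable {ι : Type u}

/-- The common limit point of the fan. -/
def top : Fan ι := (none : Option (ι × ℕ))

/-- The isolated points of the fan. -/
def pt (p : ι × ℕ) : Fan ι := (some p : Option (ι × ℕ))

lemma top_ne_pt (p : ι × ℕ) : (top : Fan ι) ≠ pt p := by
  intro h; exact Option.some_ne_none p h.symm

lemma pt_injective : Function.Injective (pt : ι × ℕ → Fan ι) := fun _ _ h => Option.some_injective _ h

lemma fan_cases (x : Fan ι) : x = top ∨ ∃ p, x = pt p := by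
  match x with
  | none => exact Or.inl rfl
  | some p => exact Or.inr ⟨p, rfl⟩

instance fanTopology : TopologicalSpace (Fan ι) where
  IsOpen U := top ∈ U → ∀ i : ι, ∃ m : ℕ, ∀ n, m ≤ n → pt (i, n) ∈ U
  isOpen_univ := fun _ _ => ⟨0, fun _ _ => trivial⟩
  isOpen_inter := by
    intro U V hU hV h i
    obtain ⟨m, hm⟩ := hU h.1 i
    obtain ⟨m', hm'⟩ := hV h.2 i
    exact ⟨max m m', fun n hn => ⟨hm n (le_trans (le_max_left _ _) hn),
      hm' n (le_trans (le_max_right _ _) hn)⟩⟩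
  isOpen_sUnion := by
    intro 𝒰 h ⟨U, hU, hx⟩ i
    obtain ⟨m, hm⟩ := h U hU hx i
    exact ⟨m, fun n hn => ⟨U, hU, hm n hn⟩⟩

lemma isOpen_fan {U : Set (Fan ι)} :
    IsOpen U ↔ (top ∈ U → ∀ i : ι, ∃ m : ℕ, ∀ n, m ≤ n → pt (i, n) ∈ U) := Iff.rfl

lemma isOpen_of_top_notMem {U : Set (Fan ι)} (h : top ∉ U) : IsOpen U :=
  isOpen_fan.mpr (fun h' => absurd h' h)

lemma isOpen_pt (p : ι × ℕ) : IsOpen ({pt p} : Set (Fan ι)) :=
  isOpen_of_top_notMem (fun h => top_ne_pt p h)

/-- Closed sets: a set `C` is closed if it contains `top` or meets each spine in a bounded set. -/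
lemma isClosed_of_top_mem {C : Set (Fan ι)} (h : top ∈ C) : IsClosed C :=
  isOpen_compl_iff.mp (isOpen_of_top_notMem (fun h' => h' h))

lemma isClosed_pt (p : ι × ℕ) : IsClosed ({pt p} : Set (Fan ι)) := by
  rw [← isOpen_compl_iff, isOpen_fan]
  intro _ i
  refine ⟨p.2 + 1, fun n hn h => ?_⟩
  have h := pt_injective h
  have : n = p.2 := by rw [← h]
  omega

instance : T2Space (Fan ι) := by
  refine ⟨fun x y hxy => ?_⟩
  wlog hx : ∃ p, x = pt p generalizing x y
  · have hy : ∃ p, y = pt p := by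
      rcases fan_cases x with h | h
      · rcases fan_cases y with h' | h'
        · exact absurd (h.trans h'.symm) hxy
        · exact h'
      · exact absurd h hx
    obtain ⟨u, v, hu, hv, h1, h2, h3⟩ := this y x hxy.symm hy
    exact ⟨v, u, hv, hu, h2, h1, h3.symm⟩
  obtain ⟨p, rfl⟩ := hx
  exact ⟨{pt p}, {pt p}ᶜ, isOpen_pt p, (isClosed_pt p).isOpen_compl, rfl,
    fun h => hxy h.symm, disjoint_compl_right⟩

instance : RegularSpace (Fan ι) := by
  refine ⟨fun {C a} hC ha => ?_⟩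
  rw [Filter.disjoint_iff]
  rcases fan_cases a with rfl | ⟨p, rfl⟩
  · refine ⟨C, ?_, Cᶜ, hC.isOpen_compl.mem_nhds ha, disjoint_compl_right⟩
    exact (isOpen_of_top_notMem ha).mem_nhdsSet.mpr subset_rfl
  · refine ⟨{pt p}ᶜ, ?_, {pt p}, (isOpen_pt p).mem_nhds rfl, disjoint_compl_left⟩
    refine (isClosed_pt p).isOpen_compl.mem_nhdsSet.mpr ?_
    intro x hx h
    rw [Set.mem_singleton_iff] at h
    exact ha (h ▸ hx)

/-- A compact subset of the fan meets only finitely many spines. -/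
lemma finite_supp {K : Set (Fan ι)} (hK : IsCompact K) : {i : ι | ∃ n, pt (i, n) ∈ K}.Finite := by
  classical
  set A := {i : ι | ∃ n, pt (i, n) ∈ K} with hA
  have hch : ∀ i : A, ∃ n, pt (i.1, n) ∈ K := fun i => i.2
  choose n hn using hch
  set D : Set (Fan ι) := Set.range (fun i : A => pt (i.1, n i)) with hD
  have htop : top ∉ D := by
    rintro ⟨i, hi⟩
    exact top_ne_pt _ hi.symm
  have hDc : IsClosed D := by
    rw [← isOpen_compl_iff, isOpen_fan]
    intro _ i
    by_cases hi : i ∈ A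
    · refine ⟨n ⟨i, hi⟩ + 1, fun m hm => ?_⟩
      rintro ⟨j, hj⟩
      have hj := pt_injective hj
      have h1 : j.1 = i := congrArg Prod.fst hj
      have h2 : n j = m := congrArg Prod.snd hj
      have h3 : j = ⟨i, hi⟩ := Subtype.ext h1
      rw [h3] at h2
      omega
    · refine ⟨0, fun m _ => ?_⟩
      rintro ⟨j, hj⟩
      have hj := pt_injective hj
      have h1 : j.1 = i := congrArg Prod.fst hj
      exact hi (h1 ▸ j.2)
  have hDK : D ⊆ K := by
    rintro _ ⟨i, rfl⟩; exact hn i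
  have hDcomp : IsCompact D := hK.of_isClosed_subset hDc hDK
  have hdisc : DiscreteTopology D := by
    rw [discreteTopology_iff_isOpen_singleton]
    rintro ⟨x, hx⟩
    refine ⟨{x}, ?_, ?_⟩
    · refine isOpen_of_top_notMem (fun h => ?_)
      rw [Set.mem_singleton_iff] at h
      exact htop (h ▸ hx)
    · ext y
      simp [Subtype.ext_iff]
  have hfin : D.Finite := hDcomp.finite (isDiscrete_iff_discreteTopology.mpr hdisc)
  have hinj : Function.Injective (fun i : A => (pt (i.1, n i) : Fan ι)) := by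
    intro i j hij
    exact Subtype.ext (congrArg Prod.fst (pt_injective hij))
  have hfin' : Finite (Set.range (fun i : A => (pt (i.1, n i) : Fan ι))) := hfin.to_subtype
  have : Finite A := Finite.of_injective_finite_range hinj
  exact Set.toFinite A

/-- The part of `S` at levels `< n`. -/
def low (n : ℕ) (S : Set (Fan ι)) : Set (ι × ℕ) := {p | p.2 < n ∧ pt p ∈ S}

lemma finite_low {S : Set (Fan ι)} (hS : IsCompact S) (n : ℕ) : (low n S).Finite := by
  refine ((finite_supp hS).prod (Set.finite_Iio n)).subset ?_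
  rintro ⟨i, m⟩ ⟨h1, h2⟩
  exact ⟨⟨m, h2⟩, h1⟩

/-- Members of the network that contain the common limit point. -/
def memPlus (n : ℕ) (G : Set (ι × ℕ)) : Set (SHyp (Fan ι)) :=
  {L | top ∈ L.1 ∧ low n L.1 = G ∧ ∀ p, pt p ∈ L.1 → ∃ m, (p.1, m) ∈ G}

/-- Members of the network that do not contain the common limit point. -/
def memMinus (n : ℕ) (G : Set (ι × ℕ)) : Set (SHyp (Fan ι)) :=
  {L | top ∉ L.1 ∧ low n L.1 = G ∧ ∀ p, pt p ∈ L.1 → p.2 < n}

/-- The `n`-th locally finite family. -/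
def fam (ι : Type u) (n : ℕ) : Set (Set (SHyp (Fan ι))) :=
  Set.range (memPlus (ι := ι) n) ∪ Set.range (memMinus (ι := ι) n)

/-- The restriction to finitely many levels is locally constant. -/
lemma low_nhds (n : ℕ) (S : SHyp (Fan ι)) :
    {L : SHyp (Fan ι) | low n L.1 = low n S.1} ∈ 𝓝 S := by
  set G := low n S.1 with hG
  have hGfin : G.Finite := finite_low (isCompact_of_SHyp S) n
  have hWo : IsOpen {x : Fan ι | ∀ p, x = pt p → p.2 < n → p ∈ G} := by
    rw [isOpen_fan]
    intro _ i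
    refine ⟨n, fun m hm p hp hpn => ?_⟩
    have hp := pt_injective hp
    rw [← hp] at hpn
    exact absurd hpn (not_lt.mpr hm)
  have h1 := isOpen_subset hWo
  have h2 : IsOpen (⋂ p ∈ G, {L : SHyp (Fan ι) | (L.1 ∩ {pt p}).Nonempty}) :=
    hGfin.isOpen_biInter (fun p _ => isOpen_hit (isOpen_pt p))
  refine Filter.mem_of_superset ((h1.inter h2).mem_nhds ⟨?_, ?_⟩) ?_
  · rintro x hx p rfl hpn
    exact ⟨hpn, hx⟩
  · refine Set.mem_iInter₂.mpr (fun p hp => ?_)
    exact ⟨pt p, hp.2, rfl⟩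
  · rintro L ⟨hL1, hL2⟩
    have hL1 : L.1 ⊆ {x : Fan ι | ∀ p, x = pt p → p.2 < n → p ∈ G} := hL1
    ext p
    constructor
    · rintro ⟨hp1, hp2⟩
      exact hL1 hp2 p rfl hp1
    · intro hp
      refine ⟨hp.1, ?_⟩
      obtain ⟨x, hx1, hx2⟩ := Set.mem_iInter₂.mp hL2 p hp
      have hx2 : x = pt p := hx2
      exact hx2 ▸ hx1

lemma locallyFinite_fam (n : ℕ) : LocallyFinite (fun P : fam ι n => (P : Set (SHyp (Fan ι)))) := by
  intro S
  refine ⟨_, low_nhds n S, ?_⟩
  refine Set.Finite.of_finite_image (f := fun Q : fam ι n => (Q : Set (SHyp (Fan ι))))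
    (((Set.finite_singleton (memMinus n (low n S.1))).insert (memPlus n (low n S.1))).subset ?_)
    Subtype.val_injective.injOn
  rintro _ ⟨⟨Q, hQ⟩, ⟨L, hL1, hL2⟩, rfl⟩
  have hL2 : low n L.1 = low n S.1 := hL2
  rcases hQ with ⟨G, rfl⟩ | ⟨G, rfl⟩
  · left
    have : low n L.1 = G := hL1.2.1
    rw [← hL2, this]
  · right
    have : low n L.1 = G := hL1.2.1
    change memMinus n G = memMinus n (low n S.1)
    rw [← hL2, this]

/-- For every open `O` and every `K ∈ O` all members of high level containing `K` lie in `O`. -/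
lemma exists_level (O : Set (SHyp (Fan ι))) (hO : IsOpen O) (K : SHyp (Fan ι)) (hK : K ∈ O) :
    ∃ n₀ : ℕ, ∀ n, n₀ ≤ n →
      (K ∈ memPlus n (low n K.1) ∧ memPlus n (low n K.1) ⊆ O) ∨
      (K ∈ memMinus n (low n K.1) ∧ memMinus n (low n K.1) ⊆ O) := by
  have hKc := isCompact_of_SHyp K
  have hfin := finite_supp hKc
  -- a level above which the support of `K` is visible
  have hlev : ∃ n₁ : ℕ, ∀ n, n₁ ≤ n → ∀ p, pt p ∈ K.1 → ∃ m, (p.1, m) ∈ low n K.1 := by
    choose! m hm using fun (i : ι) (hi : i ∈ {i : ι | ∃ n, pt (i, n) ∈ K.1}) => hi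
    obtain ⟨b, hb⟩ := (hfin.image m).bddAbove
    refine ⟨b + 1, fun n hn p hp => ⟨m p.1, ?_, hm p.1 ⟨p.2, hp⟩⟩⟩
    have := hb ⟨p.1, ⟨p.2, hp⟩, rfl⟩
    change m p.1 < n
    omega
  obtain ⟨n₁, hn₁⟩ := hlev
  rcases Classical.em (top ∈ K.1) with htop | htop
  · -- the case `top ∈ K`
    have hgen : ∀ O : Set (SHyp (Fan ι)), IsOpen O → K ∈ O →
        ∃ n₂ : ℕ, ∀ n, n₂ ≤ n → memPlus n (low n K.1) ⊆ O := by
      intro O hO
      induction hO with
      | basic W hW =>
        obtain ⟨r, U, hU, rfl⟩ := hW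
        rintro ⟨h1, h2⟩
        obtain ⟨j, hj⟩ := Set.mem_iUnion.mp (h1 htop)
        have hm := isOpen_fan.mp (hU j) hj
        choose m hm using hm
        obtain ⟨b, hb⟩ := (hfin.image m).bddAbove
        have h2' : ∀ j : Fin r, ∃ nj : ℕ, ∀ n, nj ≤ n →
            ∀ L ∈ memPlus n (low n K.1), (L.1 ∩ U j).Nonempty := by
          intro j
          obtain ⟨x, hx1, hx2⟩ := h2 j
          rcases fan_cases x with rfl | ⟨p, rfl⟩
          · exact ⟨0, fun n _ L hL => ⟨top, hL.1, hx2⟩⟩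
          · refine ⟨p.2 + 1, fun n hn L hL => ⟨pt p, ?_, hx2⟩⟩
            have : p ∈ low n K.1 := ⟨by omega, hx1⟩
            rw [← hL.2.1] at this
            exact this.2
        choose nj hnj using h2'
        obtain ⟨c, hc⟩ := (Set.finite_range nj).bddAbove
        refine ⟨max b c, fun n hn L hL => ⟨?_, ?_⟩⟩
        · intro x hx
          rcases fan_cases x with rfl | ⟨p, rfl⟩
          · exact h1 htop
          · rcases lt_or_ge p.2 n with hpn | hpn
            · have : p ∈ low n L.1 := ⟨hpn, hx⟩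
              rw [hL.2.1] at this
              exact h1 this.2
            · obtain ⟨q, hq⟩ := hL.2.2 p hx
              have hmem : p.1 ∈ {i : ι | ∃ n, pt (i, n) ∈ K.1} := ⟨q, hq.2⟩
              have hbm := hb ⟨p.1, hmem, rfl⟩
              refine Set.mem_iUnion.mpr ⟨j, hm p.1 p.2 ?_⟩
              exact hbm.trans ((le_max_left b c).trans (hn.trans hpn))
        · intro j
          exact hnj j n ((hc ⟨j, rfl⟩).trans ((le_max_right b c).trans hn)) L hL
      | univ => exact fun _ => ⟨0, fun n _ => Set.subset_univ _⟩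
      | inter s t _ _ ihs iht =>
        rintro ⟨h1, h2⟩
        obtain ⟨a, ha⟩ := ihs h1
        obtain ⟨b, hb⟩ := iht h2
        exact ⟨max a b, fun n hn => Set.subset_inter (ha n ((le_max_left a b).trans hn))
          (hb n ((le_max_right a b).trans hn))⟩
      | sUnion S _ ih =>
        rintro ⟨s, hs, hKs⟩
        obtain ⟨a, ha⟩ := ih s hs hKs
        exact ⟨a, fun n hn => (ha n hn).trans (Set.subset_sUnion_of_mem hs)⟩
    obtain ⟨n₂, hn₂⟩ := hgen O hO hK
    refine ⟨max n₁ n₂, fun n hn => Or.inl ⟨⟨htop, rfl, ?_⟩, ?_⟩⟩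
    · exact hn₁ n ((le_max_left _ _).trans hn)
    · exact hn₂ n ((le_max_right _ _).trans hn)
  · -- the case `top ∉ K`: then `K` is a finite set of isolated points
    have hbd : ∃ n₂ : ℕ, ∀ p, pt p ∈ K.1 → p.2 < n₂ := by
      have hop : IsOpen (K.1)ᶜ := K.2.2.1.isOpen_compl
      have hm := isOpen_fan.mp hop htop
      choose m hm using hm
      obtain ⟨b, hb⟩ := (hfin.image m).bddAbove
      refine ⟨b, fun p hp => ?_⟩
      by_contra hlt
      have hbm := hb ⟨p.1, ⟨p.2, hp⟩, rfl⟩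
      exact hm p.1 p.2 (hbm.trans (not_lt.mp hlt)) hp
    obtain ⟨n₂, hn₂⟩ := hbd
    refine ⟨n₂, fun n hn => Or.inr ⟨⟨htop, rfl, fun p hp => (hn₂ p hp).trans_le hn⟩, ?_⟩⟩
    rintro L ⟨hL1, hL2, hL3⟩
    have : L = K := by
      apply Subtype.ext
      ext x
      rcases fan_cases x with rfl | ⟨p, rfl⟩
      · exact ⟨fun h => absurd h hL1, fun h => absurd h htop⟩
      · constructor
        · intro h
          have : p ∈ low n L.1 := ⟨hL3 p h, h⟩
          rw [hL2] at this
          exact this.2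
        · intro h
          have : p ∈ low n K.1 := ⟨(hn₂ p h).trans_le hn, h⟩
          rw [← hL2] at this
          exact this.2
    rw [this]
    exact hK

/-- `𝒮` of a fan is a `σ`-space. -/
theorem isSigmaSpace_fan (ι : Type u) : IsSigmaSpace (SHyp (Fan ι)) := by
  refine ⟨?_, ⋃ n, fam ι n, ?_, fam ι, rfl, locallyFinite_fam⟩
  · exact isEmbedding_toCompacts.t3Space
  · intro K O hO hK
    obtain ⟨n, hn⟩ := exists_level O hO K hK
    rcases hn n le_rfl with ⟨h1, h2⟩ | ⟨h1, h2⟩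
    · exact ⟨_, Set.mem_iUnion.mpr ⟨n, Or.inl ⟨_, rfl⟩⟩, h1, h2⟩
    · exact ⟨_, Set.mem_iUnion.mpr ⟨n, Or.inr ⟨_, rfl⟩⟩, h1, h2⟩

/-- A countable family of infinite sets has an injective choice function. -/
lemma exists_injective_choice {J : Type u} [Countable J] (A : J → Set ι)
    (hA : ∀ j, (A j).Infinite) : ∃ g : J → ι, Function.Injective g ∧ ∀ j, g j ∈ A j := by
  classical
  obtain ⟨e, he⟩ := exists_injective_nat J
  choose t ht hcard using fun j => (hA j).exists_subset_card_eq (e j + 1)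
  have hall : ∀ s : Finset J, s.card ≤ (s.biUnion t).card := by
    intro s
    rcases s.eq_empty_or_nonempty with rfl | hne
    · simp
    obtain ⟨j, hj, hmax⟩ := s.exists_max_image e hne
    calc s.card = (s.image e).card := (Finset.card_image_of_injective s he).symm
      _ ≤ (Finset.range (e j + 1)).card := by
          refine Finset.card_le_card ?_
          intro x hx
          obtain ⟨i, hi, rfl⟩ := Finset.mem_image.mp hx
          exact Finset.mem_range.mpr (Nat.lt_succ_of_le (hmax i hi))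
      _ = e j + 1 := Finset.card_range _
      _ = (t j).card := (hcard j).symm
      _ ≤ (s.biUnion t).card := Finset.card_le_card (Finset.subset_biUnion_of_mem t hj)
  obtain ⟨g, hg1, hg2⟩ := (Finset.all_card_le_biUnion_card_iff_exists_injective t).mp hall
  exact ⟨g, hg1, fun j => ht j (hg2 j)⟩

/-- A fan with uncountably many spines has no `σ`-locally finite `k`-network. -/
theorem no_kNetwork_fan (ι : Type u) [Uncountable ι] :
    ¬ ∃ 𝒩 : Set (Set (Fan ι)), IsKNetwork 𝒩 ∧ IsSigmaLocallyFinite 𝒩 := by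
  classical
  rintro ⟨𝒩, hk, f, rfl, hlf⟩
  choose V hV hVfin using fun n => hlf n (top : Fan ι)
  -- the spines that `P` meets in an infinite set
  let A : Set (Fan ι) → Set ι := fun P => {i | {m : ℕ | pt (i, m) ∈ P}.Infinite}
  let 𝒬 : Set (Set (Fan ι)) :=
    ⋃ n, (fun P : f n => (P : Set (Fan ι))) '' {P : f n | ((P : Set (Fan ι)) ∩ V n).Nonempty}
  have h𝒬c : 𝒬.Countable := Set.countable_iUnion (fun n => ((hVfin n).image _).countable)
  have h𝒬 : ∀ P ∈ ⋃ n, f n, ∀ i ∈ A P, P ∈ 𝒬 := by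
    intro P hP i hi
    obtain ⟨n, hn⟩ := Set.mem_iUnion.mp hP
    refine Set.mem_iUnion.mpr ⟨n, ⟨P, hn⟩, ?_, rfl⟩
    obtain ⟨O, hOV, hO, htO⟩ := mem_nhds_iff.mp (hV n)
    obtain ⟨m, hm⟩ := isOpen_fan.mp hO htO i
    obtain ⟨m', hm', hlt⟩ := hi.exists_gt m
    exact ⟨pt (i, m'), hm', hOV (hm m' hlt.le)⟩
  -- choose an injective family of spines for the members with infinite `A P`
  let J : Type u := {P : Set (Fan ι) // P ∈ 𝒬 ∧ (A P).Infinite}
  have hJc : Countable J := (h𝒬c.mono (fun P (hP : P ∈ 𝒬 ∧ (A P).Infinite) => hP.1)).to_subtype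
  obtain ⟨g, hg, hgA⟩ := exists_injective_choice (fun P : J => A P.1) (fun P => P.2.2)
  have hne : ∀ P : J, ∃ m : ℕ, pt (g P, m) ∈ P.1 := fun P => (hgA P).nonempty
  choose m hm using hne
  let F : ι → ℕ := fun i => if h : ∃ P : J, g P = i then m h.choose + 1 else 0
  have hF : ∀ P : J, F (g P) = m P + 1 := by
    intro P
    have h : ∃ P' : J, g P' = g P := ⟨P, rfl⟩
    have h' : h.choose = P := hg h.choose_spec
    simp only [F, dif_pos h, h']
  let U : Set (Fan ι) := {x | ∀ i n, x = pt (i, n) → F i ≤ n}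
  have hU : IsOpen U := by
    rw [isOpen_fan]
    intro _ i
    refine ⟨F i, fun n hn j k hjk => ?_⟩
    have h := pt_injective hjk
    have h1 : i = j := congrArg Prod.fst h
    have h2 : n = k := congrArg Prod.snd h
    rw [← h1, ← h2]
    exact hn
  -- a spine outside of all the finite sets `A P`
  let B : Set ι := ⋃ P ∈ {P | P ∈ 𝒬 ∧ (A P).Finite}, A P
  have hB : B.Countable :=
    (h𝒬c.mono (fun P (hP : P ∈ 𝒬 ∧ (A P).Finite) => hP.1)).biUnion (fun P hP => hP.2.countable)
  obtain ⟨β, hβ⟩ : ∃ β, β ∉ B := by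
    by_contra h
    push Not at h
    have : (Set.univ : Set ι).Countable := hB.mono (fun x _ => h x)
    exact Set.not_countable_univ this
  -- the compact set
  let s : ℕ → Fan ι := fun n => pt (β, F β + n)
  have hs : Tendsto s atTop (𝓝 top) := by
    rw [tendsto_nhds]
    intro O hO htO
    obtain ⟨k, hk⟩ := isOpen_fan.mp hO htO β
    filter_upwards [eventually_ge_atTop k] with n hn
    exact hk _ (le_trans hn (Nat.le_add_left _ _))
  have hKU : insert top (Set.range s) ⊆ U := by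
    rintro x (rfl | ⟨n, rfl⟩) i k hik
    · exact absurd hik (top_ne_pt _)
    · have h := pt_injective hik
      have h1 : β = i := congrArg Prod.fst h
      have h2 : F β + n = k := congrArg Prod.snd h
      rw [← h1, ← h2]
      exact Nat.le_add_right _ _
  obtain ⟨𝒩', h𝒩', hfin, hc1, hc2⟩ := hk _ U hs.isCompact_insert_range hU hKU
  -- one of the finitely many members contains infinitely many terms
  have hex : ∃ P ∈ 𝒩', β ∈ A P := by
    by_contra h
    push Not at h
    have hfin2 : (⋃ P ∈ 𝒩', {k : ℕ | pt (β, k) ∈ P}).Finite :=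
      hfin.biUnion (fun P hP => Set.not_infinite.mp (h P hP))
    obtain ⟨b, hb⟩ := hfin2.bddAbove
    have hmem : pt (β, F β + (b + 1)) ∈ ⋃₀ 𝒩' := hc1 (Or.inr ⟨b + 1, rfl⟩)
    obtain ⟨P, hP, hPm⟩ := hmem
    have := hb (Set.mem_biUnion hP hPm)
    omega
  obtain ⟨P, hP, hβP⟩ := hex
  have hP𝒬 : P ∈ 𝒬 := h𝒬 P (h𝒩' hP) β hβP
  rcases Set.finite_or_infinite (A P) with hA | hA
  · exact hβ (Set.mem_biUnion (show P ∈ {P | P ∈ 𝒬 ∧ (A P).Finite} from ⟨hP𝒬, hA⟩) hβP)
  · let P' : J := ⟨P, hP𝒬, hA⟩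
    have h1 : pt (g P', m P') ∈ U := hc2 ⟨P, hP, hm P'⟩
    have h2 := h1 _ _ rfl
    rw [hF P'] at h2
    omega

/-- There is a Hausdorff space `X` such that `𝒮(X)` is a `σ`-space but not an `ℵ`-space. -/
theorem result : ∃ (X : Type) (_ : TopologicalSpace X), T2Space X ∧
    IsSigmaSpace (SHyp X) ∧ ¬ IsAlephSpace (SHyp X) := by
  refine ⟨Fan ℝ, inferInstance, inferInstance, isSigmaSpace_fan ℝ, ?_⟩
  rintro ⟨-, h⟩
  exact no_kNetwork_fan ℝ (kNetwork_of_embedding isEmbedding_single h)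

end Pool.Agent.Results.MP_81fb9f_gt.SigmaNotAleph
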